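import Pool.Agent.Helper60.SB.Defs3
import Pool.Agent.Helper22.SB.F0

/-!
Modules U8 and U14 of MP_7fc85e_an, stage 2: Bessel inequality, truncation of the level sets, and the
crude bound of the sup norm on the level sets.
-/

open Finset MeasureTheory
open scoped ENNReal Real
open Pool.Agent.Helper60.SB

namespace Pool.Agent.Helper5.SB

lemma isProb_tor1 : IsProbabilityMeasure tor1 := by
  constructor
  unfold tor1
  rw [Measure.smul_apply, Measure.restrict_apply_univ, Real.volume_Ico, sub_zero, smul_eq_mul]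
  apply ENNReal.inv_mul_cancel
  · rw [ne_eq, ENNReal.ofReal_eq_zero, not_le]
    exact Real.two_pi_pos
  · exact ENNReal.ofReal_ne_top

lemma isProb_tor (d : ℕ) : IsProbabilityMeasure (tor d) := by
  have := isProb_tor1
  unfold tor
  infer_instance

variable {d : ℕ}

lemma ex_continuous (k : Fin d → ℤ) : Continuous (ex k) := by
  unfold ex
  fun_prop

lemma ex_eq_prod (k : Fin d → ℤ) (x : Fin d → ℝ) :
    ex k x = ∏ j, Complex.exp (Complex.I * (k j : ℤ) * (x j : ℝ)) := by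
  unfold ex
  rw [← Complex.exp_sum, Finset.mul_sum]
  congr 1
  refine Finset.sum_congr rfl fun j _ => ?_
  ring

lemma ex_add (k l : Fin d → ℤ) (x : Fin d → ℝ) : ex (k + l) x = ex k x * ex l x := by
  unfold ex
  rw [← Complex.exp_add, ← mul_add, ← Finset.sum_add_distrib]
  congr 2
  refine Finset.sum_congr rfl fun j _ => ?_
  simp only [Pi.add_apply]
  push_cast
  ring

lemma conj_ex (k : Fin d → ℤ) (x : Fin d → ℝ) : (starRingEnd ℂ) (ex k x) = ex (-k) x := by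
  unfold ex
  rw [← Complex.exp_conj]
  congr 1
  rw [map_mul, Complex.conj_I, map_sum, neg_mul, ← mul_neg, ← Finset.sum_neg_distrib]
  congr 1
  refine Finset.sum_congr rfl fun j _ => ?_
  rw [map_mul, Complex.conj_ofReal, map_intCast]
  simp only [Pi.neg_apply]
  push_cast
  ring

lemma integral_ex (k : Fin d → ℤ) : ∫ x, ex k x ∂(tor d) = if k = 0 then 1 else 0 := by
  have := isProb_tor1
  have h1 : ∫ x, ex k x ∂(tor d) =
      ∏ j, ∫ y : ℝ, Complex.exp (Complex.I * (k j : ℤ) * (y : ℝ)) ∂tor1 := by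
    unfold tor
    rw [← MeasureTheory.integral_fintype_prod_eq_prod
      (fun j (y : ℝ) => Complex.exp (Complex.I * (k j : ℤ) * (y : ℝ)))]
    simp_rw [ex_eq_prod k]
  rw [h1]
  simp_rw [Pool.Agent.Helper22.SB.exp_integral]
  split_ifs with h
  · subst h
    simp
  · obtain ⟨j, hj⟩ := Function.ne_iff.mp h
    refine Finset.prod_eq_zero (Finset.mem_univ j) ?_
    rw [if_neg]
    simpa using hj

lemma memLp_ex (k : Fin d → ℤ) (p : ℝ≥0∞) : MemLp (ex k) p (tor d) := by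
  have := isProb_tor d
  exact MemLp.of_bound (ex_continuous k).aestronglyMeasurable 1
    (Filter.Eventually.of_forall fun x => (norm_ex k x).le)

lemma norm_fc_integrand (f : (Fin d → ℝ) → ℂ) (k : Fin d → ℤ) (x : Fin d → ℝ) :
    ‖f x * ex (-k) x‖ = ‖f x‖ := by
  rw [norm_mul, norm_ex, mul_one]

lemma integrable_fc {f : (Fin d → ℝ) → ℂ} (hf : Integrable f (tor d)) (k : Fin d → ℤ) :
    Integrable (fun x => f x * ex (-k) x) (tor d) := by
  refine hf.mul_bdd (c := 1) (ex_continuous _).aestronglyMeasurable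
    (Filter.Eventually.of_forall fun x => (norm_ex (-k) x).le)

/-- Bessel inequality -/
theorem bessel (f : (Fin d → ℝ) → ℂ) (hf : MemLp f 2 (tor d)) (hf1 : eLpNorm f 2 (tor d) ≤ 1)
    (Q : Finset (Fin d → ℤ)) : ∑ k ∈ Q, ‖fc f k‖ ^ 2 ≤ 1 := by
  have := isProb_tor d
  set v : (Fin d → ℤ) → Lp ℂ 2 (tor d) := fun k => (memLp_ex k 2).toLp (ex k) with hv
  have hinner : ∀ k l, @inner ℂ _ _ (v k) (v l) = if l = k then 1 else 0 := by
    intro k l
    rw [L2.inner_def]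
    have e1 : (fun x => @inner ℂ _ _ (v k x) (v l x)) =ᵐ[tor d] fun x => ex (l - k) x := by
      filter_upwards [(memLp_ex (d := d) k 2).coeFn_toLp, (memLp_ex (d := d) l 2).coeFn_toLp]
        with x h1 h2
      rw [hv]
      simp only
      rw [h1, h2, RCLike.inner_apply, conj_ex, ← ex_add, sub_eq_add_neg]
    rw [integral_congr_ae e1, integral_ex]
    simp only [sub_eq_zero]
  have ho : Orthonormal ℂ v := by
    rw [orthonormal_iff_ite]
    intro k l
    rw [hinner]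
    simp only [eq_comm]
  have hb := ho.sum_inner_products_le (s := Q) (x := hf.toLp f)
  have h1 : ‖hf.toLp f‖ ≤ 1 := by
    rw [Lp.norm_toLp]
    exact ENNReal.toReal_le_of_le_ofReal zero_le_one (by simpa using hf1)
  have h2 : ∀ k, @inner ℂ _ _ (v k) (hf.toLp f) = fc f k := by
    intro k
    rw [L2.inner_def]
    unfold fc
    refine integral_congr_ae ?_
    filter_upwards [(memLp_ex (d := d) k 2).coeFn_toLp, hf.coeFn_toLp] with x h1 h2
    rw [hv]
    simp only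
    rw [h1, h2, RCLike.inner_apply, conj_ex]
  simp_rw [h2] at hb
  refine hb.trans ?_
  nlinarith [norm_nonneg (hf.toLp f)]

lemma norm_cco_sq {Q : Finset (Fin d → ℤ)} (y : Q × Bool → ℝ) (k : Q) :
    ‖cco y k‖ ^ 2 = y (k, false) ^ 2 + y (k, true) ^ 2 := by
  unfold cco
  rw [← Complex.normSq_eq_norm_sq, Complex.normSq_add_mul_I]

lemma sum_sq_eq {Q : Finset (Fin d → ℤ)} (y : Q × Bool → ℝ) :
    ∑ i, y i ^ 2 = ∑ k : Q, ‖cco y k‖ ^ 2 := by
  rw [Fintype.sum_prod_type]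
  refine Finset.sum_congr rfl fun k _ => ?_
  rw [norm_cco_sq, Fintype.sum_bool, add_comm]

/-- the sum over the frequencies, block by block -/
lemma sum_blocks {Q : Finset (Fin d → ℤ)} {B : Type} [Fintype B] [DecidableEq B]
    (bl : (Fin d → ℤ) → B) (F : B → (Fin d → ℤ) → ℝ) :
    ∑ k : Q, F (bl k) k = ∑ β, ∑ k ∈ Q.filter fun k => bl k = β, F β k := by
  rw [Finset.sum_coe_sort Q fun k => F (bl k) k, ← Finset.sum_fiberwise Q bl]
  refine Finset.sum_congr rfl fun β _ => ?_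
  refine Finset.sum_congr rfl fun k hk => ?_
  rw [(Finset.mem_filter.mp hk).2]

theorem Sset_two {d : ℕ} (Q : Finset (Fin d → ℤ)) (B : Type) [Fintype B]
    (bl : (Fin d → ℤ) → B) (μ : (Fin d → ℤ) → ℂ) (hμ : ∀ k, ‖μ k‖ ≤ 1) (y : Q × Bool → ℝ)
    (hy : y ∈ Sset Q B bl μ 2) : ∑ i, y i ^ 2 ≤ Fintype.card B := by
  classical
  obtain ⟨h, hh, hc⟩ := hy
  rw [sum_sq_eq]
  have h1 : ∀ k : Q, ‖cco y k‖ ^ 2 ≤ ‖fc (h (bl k)) k‖ ^ 2 := by
    intro k
    rw [hc, norm_mul, mul_pow]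
    have h2 : ‖μ k‖ ^ 2 ≤ 1 := pow_le_one₀ (norm_nonneg _) (hμ k)
    nlinarith [sq_nonneg ‖fc (h (bl k)) k‖]
  refine (Finset.sum_le_sum fun k _ => h1 k).trans ?_
  rw [sum_blocks bl fun β k => ‖fc (h β) k‖ ^ 2]
  refine (Finset.sum_le_sum fun β _ => bessel (h β) (hh β).1 (hh β).2 _).trans ?_
  simp

theorem Sset_mono {d : ℕ} (Q : Finset (Fin d → ℤ)) (B : Type)
    (bl : (Fin d → ℤ) → B) (μ : (Fin d → ℤ) → ℂ) (p p' : ℝ≥0∞) (hp : p ≤ p') :
    Sset Q B bl μ p' ⊆ Sset Q B bl μ p := by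
  have := isProb_tor d
  rintro y ⟨h, hh, hc⟩
  refine ⟨h, fun β => ⟨(hh β).1.mono_exponent hp, ?_⟩, hc⟩
  exact (eLpNorm_le_eLpNorm_of_exponent_le hp (hh β).1.1).trans (hh β).2

/-- pointwise bound for the truncation -/
lemma trunc_pw {p q A t : ℝ} (hA : 0 < A) (ht : 0 < t) (hq : 0 < q)
    (h : (t / A) ^ (q - p) ≤ 1) : (A ^ (-(1 - p / q)) * t) ^ q ≤ t ^ p := by
  rw [Real.mul_rpow (Real.rpow_nonneg hA.le _) ht.le, ← Real.rpow_mul hA.le]
  have e1 : -(1 - p / q) * q = -(q - p) := by field_simp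
  have e2 : t ^ q = t ^ (q - p) * t ^ p := by
    rw [← Real.rpow_add ht]
    congr 1
    ring
  rw [e1, e2, Real.rpow_neg hA.le, ← mul_assoc]
  rw [Real.div_rpow ht.le hA.le] at h
  have e3 : (A ^ (q - p))⁻¹ * t ^ (q - p) = t ^ (q - p) / A ^ (q - p) := by
    rw [div_eq_mul_inv, mul_comm]
  rw [e3]
  have := Real.rpow_nonneg ht.le p
  nlinarith

/-- one piece of a truncated function -/
lemma trunc_piece (f : (Fin d → ℝ) → ℂ) {p q A : ℝ} (hp : 0 < p) (hq : 0 < q) (hA : 0 < A)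
    (hf : MemLp f (ENNReal.ofReal p) (tor d)) (hf1 : eLpNorm f (ENNReal.ofReal p) (tor d) ≤ 1)
    (s : Set (Fin d → ℝ)) (hs : NullMeasurableSet s (tor d))
    (h : ∀ x ∈ s, f x ≠ 0 → (‖f x‖ / A) ^ (q - p) ≤ 1) :
    MemLp (fun x => ((A ^ (-(1 - p / q)) : ℝ) : ℂ) * s.indicator f x) (ENNReal.ofReal q) (tor d) ∧
    eLpNorm (fun x => ((A ^ (-(1 - p / q)) : ℝ) : ℂ) * s.indicator f x) (ENNReal.ofReal q)
      (tor d) ≤ 1 := by
  have hm : AEStronglyMeasurable (fun x => ((A ^ (-(1 - p / q)) : ℝ) : ℂ) * s.indicator f x)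
      (tor d) := (hf.1.indicator₀ hs).const_mul _
  have hA' := Real.rpow_nonneg hA.le (-(1 - p / q))
  have key : eLpNorm (fun x => ((A ^ (-(1 - p / q)) : ℝ) : ℂ) * s.indicator f x)
      (ENNReal.ofReal q) (tor d) ≤ 1 := by
    rw [eLpNorm_eq_lintegral_rpow_enorm_toReal (by simpa using hq) ENNReal.ofReal_ne_top,
      ENNReal.toReal_ofReal hq.le]
    refine ENNReal.rpow_le_one ?_ (by positivity)
    rw [eLpNorm_eq_lintegral_rpow_enorm_toReal (by simpa using hp) ENNReal.ofReal_ne_top,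
      ENNReal.toReal_ofReal hp.le] at hf1
    have h1 : ∫⁻ x, ‖f x‖ₑ ^ p ∂(tor d) ≤ 1 := by
      by_contra hcon
      push Not at hcon
      have := ENNReal.one_lt_rpow hcon (show 0 < 1 / p by positivity)
      exact absurd hf1 (not_le.mpr this)
    refine le_trans (lintegral_mono fun x => ?_) h1
    by_cases hx : x ∈ s
    · rw [Set.indicator_of_mem hx]
      by_cases h0 : f x = 0
      · simp [h0, hq, hp]
      · have ht : 0 < ‖f x‖ := norm_pos_iff.mpr h0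
        rw [← ofReal_norm, ← ofReal_norm, norm_mul, Complex.norm_real,
          Real.norm_of_nonneg hA', ENNReal.ofReal_rpow_of_nonneg (by positivity) hq.le,
          ENNReal.ofReal_rpow_of_nonneg ht.le hp.le]
        exact ENNReal.ofReal_le_ofReal (trunc_pw hA ht hq (h x hx h0))
    · rw [Set.indicator_of_notMem hx]
      simp [hq]
  exact ⟨⟨hm, key.trans_lt ENNReal.one_lt_top⟩, key⟩

/-- The vector with given complex coefficients. -/
noncomputable def vec {Q : Finset (Fin d → ℤ)} (c : Q → ℂ) : Q × Bool → ℝ :=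
  fun i => if i.2 then (c i.1).im else (c i.1).re

lemma cco_vec {Q : Finset (Fin d → ℤ)} (c : Q → ℂ) (k : Q) : cco (vec c) k = c k := by
  unfold cco vec
  simp

lemma eq_of_cco {Q : Finset (Fin d → ℤ)} {y z : Q × Bool → ℝ} (h : ∀ k, cco y k = cco z k) :
    y = z := by
  have hre : ∀ (y : Q × Bool → ℝ) k, (cco y k).re = y (k, false) := by
    intro y k
    unfold cco
    simp
  have him : ∀ (y : Q × Bool → ℝ) k, (cco y k).im = y (k, true) := by
    intro y k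
    unfold cco
    simp
  ext ⟨k, b⟩
  cases b
  · rw [← hre y k, ← hre z k, h]
  · rw [← him y k, ← him z k, h]

lemma cco_comb {Q : Finset (Fin d → ℤ)} (a b : ℝ) (y z : Q × Bool → ℝ) (k : Q) :
    cco (a • y + b • z) k = a * cco y k + b * cco z k := by
  unfold cco
  simp only [Pi.add_apply, Pi.smul_apply, smul_eq_mul]
  push_cast
  ring

lemma fc_comb (f g : (Fin d → ℝ) → ℂ) (hf : Integrable f (tor d)) (hg : Integrable g (tor d))
    (a b : ℂ) (k : Fin d → ℤ) :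
    fc (fun x => a * f x + b * g x) k = a * fc f k + b * fc g k := by
  unfold fc
  rw [← integral_const_mul, ← integral_const_mul, ← integral_add
    ((integrable_fc hf k).const_mul a) ((integrable_fc hg k).const_mul b)]
  refine integral_congr_ae (Filter.Eventually.of_forall fun x => ?_)
  simp only
  ring

/-- truncation at height `A` -/
lemma trunc_two (f : (Fin d → ℝ) → ℂ) {p q A : ℝ} (hp : 1 ≤ p) (hp2 : p ≤ 2) (hq : 1 ≤ q)
    (hqp : q ≤ p) (hA : 0 < A) (hf : MemLp f (ENNReal.ofReal p) (tor d))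
    (hf1 : eLpNorm f (ENNReal.ofReal p) (tor d) ≤ 1) :
    ∃ f1 f2 : (Fin d → ℝ) → ℂ, (MemLp f1 2 (tor d) ∧ eLpNorm f1 2 (tor d) ≤ 1) ∧
      (MemLp f2 (ENNReal.ofReal q) (tor d) ∧ eLpNorm f2 (ENNReal.ofReal q) (tor d) ≤ 1) ∧
      ∀ k, fc f k = ((A ^ (1 - p / 2) : ℝ) : ℂ) * fc f1 k + ((A ^ (1 - p / q) : ℝ) : ℂ) * fc f2 k := by
  have := isProb_tor d
  have hs : NullMeasurableSet {x | ‖f x‖ ≤ A} (tor d) :=
    nullMeasurableSet_le hf.1.norm.aemeasurable aemeasurable_const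
  have hp0 : 0 < p := by linarith
  have hq0 : 0 < q := by linarith
  obtain ⟨m1, n1⟩ := trunc_piece f (q := 2) hp0 two_pos hA hf hf1 {x | ‖f x‖ ≤ A} hs (by
    intro x hx _
    refine Real.rpow_le_one (by positivity) ?_ (by linarith)
    exact (div_le_one hA).mpr hx)
  obtain ⟨m2, n2⟩ := trunc_piece f (q := q) hp0 hq0 hA hf hf1 {x | ‖f x‖ ≤ A}ᶜ hs.compl (by
    intro x hx _
    have hx' : A < ‖f x‖ := by simpa using hx
    have h1 : 1 ≤ ‖f x‖ / A := (one_le_div hA).mpr hx'.le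
    exact Real.rpow_le_one_of_one_le_of_nonpos h1 (by linarith))
  have e2 : ENNReal.ofReal 2 = 2 := by simp
  rw [e2] at m1 n1
  refine ⟨_, _, ⟨m1, n1⟩, ⟨m2, n2⟩, fun k => ?_⟩
  rw [← fc_comb _ _ (m1.integrable (by norm_num))
    (m2.integrable (by rw [← ENNReal.ofReal_one]; exact ENNReal.ofReal_le_ofReal hq))]
  congr 1
  ext x
  have hc : ∀ a : ℝ, ((A ^ a : ℝ) : ℂ) * ((A ^ (-a) : ℝ) : ℂ) = 1 := by
    intro a
    rw [← Complex.ofReal_mul, ← Real.rpow_add hA, add_neg_cancel, Real.rpow_zero,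
      Complex.ofReal_one]
  rw [← mul_assoc, ← mul_assoc, hc, hc, one_mul, one_mul, Set.indicator_self_add_compl_apply]

theorem Sset_trunc {d : ℕ} (Q : Finset (Fin d → ℤ)) (B : Type)
    (bl : (Fin d → ℤ) → B) (μ : (Fin d → ℤ) → ℂ) (b : ℕ) (hb : 2 ≤ b) (p : ℝ)
    (hp0 : 2 * b / (2 * b - 1) ≤ p) (hp : p < 2) (A : ℝ) (hA : 1 ≤ A) (y : Q × Bool → ℝ)
    (hy : y ∈ Sset Q B bl μ (ENNReal.ofReal p)) :
    ∃ y1 ∈ Sset Q B bl μ 2, ∃ y2 ∈ Sset Q B bl μ (ENNReal.ofReal (2 * b / (2 * b - 1))),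
      y = A ^ (1 - p / 2) • y1 + A ^ (1 - p * (2 * b - 1) / (2 * b)) • y2 := by
  obtain ⟨h, hh, hc⟩ := hy
  have hb' : (2 : ℝ) ≤ b := by exact_mod_cast hb
  have hq1 : (1 : ℝ) ≤ 2 * b / (2 * b - 1) := by
    rw [le_div_iff₀ (by linarith)]
    linarith
  have key := fun β => trunc_two (h β) (A := A) (hq1.trans hp0) hp.le hq1 hp0 (by linarith)
    (hh β).1 (hh β).2
  choose f1 f2 h1 h2 h3 using key
  refine ⟨vec fun k => μ k * fc (f1 (bl k)) k, ⟨f1, h1, fun k => cco_vec _ _⟩,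
    vec fun k => μ k * fc (f2 (bl k)) k, ⟨f2, h2, fun k => cco_vec _ _⟩, eq_of_cco fun k => ?_⟩
  rw [cco_comb, cco_vec, cco_vec, hc, h3]
  have e : p / (2 * b / (2 * b - 1)) = p * (2 * b - 1) / (2 * b) := by
    have h4 : (2 * (b : ℝ) - 1) ≠ 0 := by linarith
    field_simp
  rw [e]
  ring

/-- Cauchy-Schwarz and Bessel on one block -/
lemma block_two (f : (Fin d → ℝ) → ℂ) (hf : MemLp f 2 (tor d) ∧ eLpNorm f 2 (tor d) ≤ 1)
    (Q : Finset (Fin d → ℤ)) : ∑ k ∈ Q, ‖fc f k‖ ≤ (Q.card : ℝ) ^ (1 / 2 : ℝ) := by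
  have h1 := bessel f hf.1 hf.2 Q
  have h3 : (∑ k ∈ Q, ‖fc f k‖) ^ 2 ≤ Q.card := by
    have := sq_sum_le_card_mul_sum_sq (s := Q) (f := fun k => ‖fc f k‖)
    have hc : (0 : ℝ) ≤ Q.card := Nat.cast_nonneg _
    nlinarith
  rw [← Real.sqrt_eq_rpow]
  exact Real.le_sqrt_of_sq_le h3

/-- the trivial bound of a Fourier coefficient -/
lemma norm_fc_le (f : (Fin d → ℝ) → ℂ)
    (hf : MemLp f (ENNReal.ofReal 1) (tor d) ∧ eLpNorm f (ENNReal.ofReal 1) (tor d) ≤ 1)
    (k : Fin d → ℤ) : ‖fc f k‖ ≤ 1 := by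
  rw [ENNReal.ofReal_one] at hf
  unfold fc
  refine (norm_integral_le_integral_norm _).trans ?_
  simp_rw [norm_fc_integrand]
  have h1 := hf.2
  rw [eLpNorm_one_eq_lintegral_enorm] at h1
  rw [integral_norm_eq_lintegral_enorm hf.1.1]
  exact ENNReal.toReal_le_of_le_ofReal zero_le_one (by simpa using h1)

/-- one block, `p < 2` -/
lemma block_p (f : (Fin d → ℝ) → ℂ) {p : ℝ} (hp : 1 ≤ p) (hp2 : p ≤ 2)
    (hf : MemLp f (ENNReal.ofReal p) (tor d) ∧ eLpNorm f (ENNReal.ofReal p) (tor d) ≤ 1)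
    (Q : Finset (Fin d → ℤ)) : ∑ k ∈ Q, ‖fc f k‖ ≤ 2 * (Q.card : ℝ) ^ (1 / p) := by
  have hp0 : 0 < p := by linarith
  rcases Finset.eq_empty_or_nonempty Q with rfl | hne
  · simp only [Finset.sum_empty, Finset.card_empty, Nat.cast_zero]
    positivity
  have hQ : (0 : ℝ) < Q.card := by exact_mod_cast hne.card_pos
  set N : ℝ := (Q.card : ℝ) with hN
  obtain ⟨f1, f2, h1, h2, h3⟩ := trunc_two f (q := 1) (A := N ^ (1 / p)) hp hp2 le_rfl hp
    (by positivity) hf.1 hf.2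
  have hb1 := block_two f1 h1 Q
  have hb2 : ∑ k ∈ Q, ‖fc f2 k‖ ≤ N := by
    refine (Finset.sum_le_sum fun k _ => norm_fc_le f2 h2 k).trans ?_
    simp [hN]
  have hA1 : 0 ≤ (N ^ (1 / p)) ^ (1 - p / 2) := by positivity
  have hA2 : 0 ≤ (N ^ (1 / p)) ^ (1 - p / 1) := by positivity
  have h4 : ∀ k ∈ Q, ‖fc f k‖ ≤ (N ^ (1 / p)) ^ (1 - p / 2) * ‖fc f1 k‖ +
      (N ^ (1 / p)) ^ (1 - p / 1) * ‖fc f2 k‖ := by
    intro k _
    rw [h3]
    refine (norm_add_le _ _).trans (le_of_eq ?_)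
    rw [norm_mul, norm_mul, Complex.norm_real, Complex.norm_real, Real.norm_of_nonneg hA1,
      Real.norm_of_nonneg hA2]
  refine (Finset.sum_le_sum h4).trans ?_
  rw [Finset.sum_add_distrib, ← Finset.mul_sum, ← Finset.mul_sum]
  have e1 : (N ^ (1 / p)) ^ (1 - p / 2) * N ^ (1 / 2 : ℝ) = N ^ (1 / p) := by
    rw [← Real.rpow_mul hQ.le, ← Real.rpow_add hQ]
    congr 1
    field_simp
    ring
  have e2 : (N ^ (1 / p)) ^ (1 - p / 1) * N = N ^ (1 / p) := by
    nth_rewrite 2 [← Real.rpow_one N]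
    rw [← Real.rpow_mul hQ.le, ← Real.rpow_add hQ]
    congr 1
    field_simp
    ring
  have h5 := mul_le_mul_of_nonneg_left hb1 hA1
  have h6 := mul_le_mul_of_nonneg_left hb2 hA2
  rw [e1] at h5
  rw [e2] at h6
  linarith

theorem TT_Sset_le {d : ℕ} (Q : Finset (Fin d → ℤ)) (B : Type) [Fintype B]
    (bl : (Fin d → ℤ) → B) (μ : (Fin d → ℤ) → ℂ) (hμ : ∀ k, ‖μ k‖ ≤ 1) (p : ℝ≥0∞) (hp : 1 ≤ p)
    (y : Q × Bool → ℝ) (hy : y ∈ Sset Q B bl μ p) (x : Fin d → ℝ) :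
    ‖TT Q y x‖ ≤ 2 * Fintype.card B * (Q.card : ℝ) ^ (max (1 / p.toReal) (1 / 2)) := by
  classical
  have hB : ∃ h : B → (Fin d → ℝ) → ℂ, (∀ k : Q, cco y k = μ k * fc (h (bl k)) k) ∧
      ∀ β, ∀ Q' ⊆ Q, ∑ k ∈ Q', ‖fc (h β) k‖ ≤ 2 * (Q.card : ℝ) ^ (max (1 / p.toReal) (1 / 2)) := by
    have hmono : ∀ Q' ⊆ Q, (Q'.card : ℝ) ^ (max (1 / p.toReal) (1 / 2)) ≤
        (Q.card : ℝ) ^ (max (1 / p.toReal) (1 / 2)) := fun Q' hQ' =>
      Real.rpow_le_rpow (Nat.cast_nonneg _) (by exact_mod_cast Finset.card_le_card hQ')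
        (le_max_of_le_right (by norm_num))
    rcases le_total 2 p with h2 | h2
    · obtain ⟨h, hh, hc⟩ := Sset_mono Q B bl μ 2 p h2 hy
      refine ⟨h, hc, fun β Q' hQ' => ?_⟩
      have e : max (1 / p.toReal) (1 / 2) = (1 / 2 : ℝ) := by
        refine max_eq_right ?_
        by_cases hpt : p = ⊤
        · simp [hpt]
        · have : (2 : ℝ) ≤ p.toReal := by
            have := ENNReal.toReal_mono hpt h2
            simpa using this
          exact one_div_le_one_div_of_le two_pos this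
      have h3 := hmono Q' hQ'
      rw [e] at h3 ⊢
      have h4 := block_two (h β) (hh β) Q'
      have h5 : (0 : ℝ) ≤ (Q.card : ℝ) ^ (1 / 2 : ℝ) := by positivity
      linarith
    · obtain ⟨h, hh, hc⟩ := hy
      have hpt : p ≠ ⊤ := ne_top_of_le_ne_top (by norm_num) h2
      have e0 : p = ENNReal.ofReal p.toReal := (ENNReal.ofReal_toReal hpt).symm
      have hp1 : 1 ≤ p.toReal := by
        have := ENNReal.toReal_mono hpt hp
        simpa using this
      have hp2 : p.toReal ≤ 2 := by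
        have := ENNReal.toReal_mono (by norm_num) h2
        simpa using this
      refine ⟨h, hc, fun β Q' hQ' => ?_⟩
      have e : max (1 / p.toReal) (1 / 2) = 1 / p.toReal :=
        max_eq_left (one_div_le_one_div_of_le (by linarith) hp2)
      have h3 := hmono Q' hQ'
      rw [e] at h3 ⊢
      have hh' := hh β
      rw [e0] at hh'
      have h4 := block_p (h β) hp1 hp2 hh' Q'
      linarith
  obtain ⟨h, hc, hb⟩ := hB
  refine (TT_le Q y x).trans ?_
  have h1 : ∀ k : Q, ‖cco y k‖ ≤ ‖fc (h (bl k)) k‖ := by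
    intro k
    rw [hc, norm_mul]
    nlinarith [hμ k, norm_nonneg (fc (h (bl k)) k), norm_nonneg (μ k)]
  refine (Finset.sum_le_sum fun k _ => h1 k).trans ?_
  rw [sum_blocks bl fun β k => ‖fc (h β) k‖]
  refine (Finset.sum_le_sum fun β _ => hb β _ (Finset.filter_subset _ _)).trans ?_
  rw [Finset.sum_const, Finset.card_univ, nsmul_eq_mul]
  exact le_of_eq (by ring)

end Pool.Agent.Helper5.SB
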